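import Pool.Agent.Helper39.CR.GoalsT

/-!
# Project CAR (MP_d97caa_an), stage 3: packet TUN
-/

open scoped ComplexOrder ZeroAtInfty
open TopologicalSpace

namespace Pool.Agent.Helper31.CR

open Pool.Agent.Helper39.CR

noncomputable section

/-- The projection of the unitization onto the scalars. -/
def fstH (X : Type) [NonUnitalCStarAlgebra X] : Unitization ℂ X →⋆ₙₐ[ℂ] ℂ where
  toFun a := a.fst
  map_smul' c a := by simp
  map_zero' := by simp
  map_add' a b := by simp
  map_mul' a b := by simp
  map_star' a := by simp

theorem tun : S_TUN := by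
  intro T i X _ _
  obtain ⟨d, h1, h2, -⟩ := T.exact i X (Unitization ℂ X) ℂ (inrH X) (fstH X)
    (fun a b h => Unitization.inr_injective h)
    (fun c => ⟨Unitization.inl c, by
      show (Unitization.inl c : Unitization ℂ X).fst = c
      simp⟩)
    (fun a => by
      constructor
      · intro h
        refine ⟨a.snd, ?_⟩
        show ((a.snd : X) : Unitization ℂ X) = a
        have h' : a.fst = 0 := h
        refine Unitization.ext ?_ ?_
        · rw [Unitization.fst_inr, h']
        · rw [Unitization.snd_inr]
      · rintro ⟨x, rfl⟩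
        show ((x : X) : Unitization ℂ X).fst = 0
        rw [Unitization.fst_inr])
  constructor
  · refine (injective_iff_map_eq_zero (T.map i (inrH X))).2 fun x hx => ?_
    obtain ⟨y, rfl⟩ := (h1 x).1 hx
    rw [T.point i y, map_zero]
  · intro y
    obtain ⟨x, hx⟩ := (h2 y).1 (T.point (i + 1) (d y))
    exact ⟨x, hx⟩

end

end Pool.Agent.Helper31.CR
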